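import Pool.Agent.H7.HD.Targets11
import Pool.Agent.H60.HD9.IX

/-!
# MP_e37c09_lc: module QF, enumeration of the subsets of `K` in HOD
-/

open Ordinal Cardinal Order Set
open scoped ZFSet

universe u

namespace Pool.Agent.H49.HDA.QF

open _root_.HD
open Pool.Agent.H60.HD9.IX
open Pool.Agent.H17.HD.XK (nth_uniq)

variable {en : Ordinal.{u} → ZFSet.{u}}

theorem do_pr (hen : EN en) {F : ZFSet.{u}} (hF : OD F) :
    DO.{u} fun w => ZFSet.pair (w 0).toZFSet (en (w 1)) ∈ F := by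
  refine ⟨fun v => ∃ s, ((v 1).IsOrdinal ∧ s = en (v 1).rank) ∧ ∃ p ∈ F,
    p = ZFSet.pair (v 0) s, ?_, fun w => ?_⟩
  · refine DZ.ex (R := fun s v => ((v 1).IsOrdinal ∧ s = en (v 1).rank) ∧ ∃ p ∈ F,
      p = ZFSet.pair (v 0) s) ?_
    refine DZ.and ?_ ?_
    · exact hen.dz.ren fun n => if n = 0 then 2 else 0
    · refine DZ.od (R := fun G v => ∃ p ∈ G, p = ZFSet.pair (v 1) (v 0)) hF ?_
      refine DZ.exMem (R := fun p v => p = ZFSet.pair (v 2) (v 1)) 0 ?_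
      exact (loc_pair 0 3 2).dz
  · constructor
    · intro h
      refine ⟨en (w 1), ⟨ZFSet.isOrdinal_toZFSet _, ?_⟩, _, h, rfl⟩
      show en (w 1) = en (w 1).toZFSet.rank
      rw [rank_toZFSet]
    · rintro ⟨s, ⟨-, h1⟩, p, hp, h2⟩
      have h1' : s = en (w 1) := by
        rw [h1]
        show en (w 1).toZFSet.rank = _
        rw [rank_toZFSet]
      subst h1'
      rw [h2] at hp
      exact hp

theorem X (hEK : T_EK.{u}) : T_QF.{u} := by
  classical
  intro D G K hBG hK hGK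
  obtain ⟨en, hen⟩ := All.en.{u}
  obtain ⟨e, he1, he2⟩ := hEK D G K hBG hK hGK
  obtain ⟨hix1, -, -, hix4, hix5, -⟩ := ix.{u} en hen
  have hsj : Sj K (pn en K.ord) fun z => ix en K.ord (e z) := by
    refine ⟨fun x _ => (hix4 _ _ (he1 x).1 (he1 x).2).1, fun z hz => ?_⟩
    obtain ⟨y, hy, hs, rfl⟩ := hix5 _ _ hz
    obtain ⟨ζ, hζ, rfl⟩ := he2 y hy hs
    exact ⟨ζ, hζ, rfl⟩
  refine ⟨pn en K.ord, fun β a => PX en K.ord β a, fun z => ix en K.ord (e z), ⟨?_, ?_, hsj, ?_⟩,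
    ?_⟩
  · -- definability
    refine (DO.ex (R := fun c w => c = K.ord ∧ PX en c (w 0) (w 1))
      ((DO.eqc 0 K.ord).and (DO.s3 (X := fun a b c => PX en a b c) hix1 0 1 2))).congr fun w => ?_
    constructor
    · intro h
      exact ⟨_, rfl, h⟩
    · rintro ⟨c, rfl, h⟩
      exact h
  · -- all sets
    intro A hA
    have hsub : os K.ord A ⊆ K.ord.toZFSet := fun z hz => by
      obtain ⟨a, ha, -, rfl⟩ := mem_os.1 hz
      exact toZFSet_mem_toZFSet_iff.2 ha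
    obtain ⟨h1, h2⟩ := hix4 K.ord _ (hod_os hA K.ord) hsub
    refine ⟨_, h1, fun a ha => ?_⟩
    rw [h2 a ha, ord_mem_os]
    exact ⟨fun h => h.2, fun h => ⟨ha, h⟩⟩
  · -- the size
    have h1 : Few (succ K).ord (Iio (pn en K.ord)) := by
      refine ⟨K.ord, Cardinal.ord_lt_ord.2 (lt_succ K), fun z => ix en K.ord (e z), fun x hx => ?_⟩
      exact hsj.onto x hx
    rw [few_iff, Cardinal.mk_Iio_ordinal, Cardinal.lift_lt] at h1
    exact Cardinal.lt_ord.2 h1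
  · -- cardinals
    intro τ hKτ hτ hC β hβ hpow
    obtain ⟨F, y, hF, hFf, hF2⟩ := hpow
    have h0τ : 0 < τ := lt_of_le_of_lt (bot_le : (0 : Ordinal.{u}) ≤ K.ord) hKτ
    have h0 : 0 < pn en K.ord := lt_of_lt_of_le h0τ hτ
    have huq : ∀ a < β, ∀ x x', x ∈ Cs en K.ord → x' ∈ Cs en K.ord →
        ZFSet.pair a.toZFSet (en x) ∈ F → ZFSet.pair a.toZFSet (en x') ∈ F → x = x' := by
      intro a ha x x' hx hx' h h'
      refine cs_inj hx hx' ?_
      obtain ⟨w, -, hw⟩ := hFf.2 a.toZFSet (toZFSet_mem_toZFSet_iff.2 ha)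
      exact (hw _ h).trans (hw _ h').symm
    have hon : OntoHOD β (pn en K.ord) := by
      refine Pool.Agent.H54.CL.onto_of (R := fun a b =>
        (∃ x, ZFSet.pair a.toZFSet (en x) ∈ F ∧ nth (Cs en K.ord) b x) ∨
        ((¬ ∃ b x, ZFSet.pair a.toZFSet (en x) ∈ F ∧ nth (Cs en K.ord) b x) ∧ b = 0)) ?_
        (fun a ha => ?_) (fun a ha b b' hb hb' => ?_) fun b hb => ?_
      · have hS : DO.{u} fun w => ∃ x, ZFSet.pair (w 0).toZFSet (en x) ∈ F ∧
            nth (Cs en K.ord) (w 1) x := by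
          refine DO.ex (R := fun x w => ZFSet.pair (w 0).toZFSet (en x) ∈ F ∧
            nth (Cs en K.ord) (w 1) x) ?_
          refine (DO.s2 (X := fun a b => ZFSet.pair a.toZFSet (en b) ∈ F) (do_pr hen hF.od)
            1 0).and ?_
          refine (DO.ex (R := fun c w => c = K.ord ∧ nth (Cs en c) (w 2) (w 0))
            ((DO.eqc 0 K.ord).and (do_nth' hen 3 1 0))).congr fun w => ?_
          constructor
          · intro h
            exact ⟨_, rfl, h⟩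
          · rintro ⟨c, rfl, h⟩
            exact h
        refine DO.or hS ((DO.not ?_).and (DO.eqc 1 0))
        exact DO.ex (R := fun b w => ∃ x, ZFSet.pair (w 0).toZFSet (en x) ∈ F ∧
          nth (Cs en K.ord) b x) (DO.s2 (X := fun a b => ∃ x, ZFSet.pair a.toZFSet (en x) ∈ F ∧
          nth (Cs en K.ord) b x) hS 1 0)
      · by_cases hex : ∃ b x, ZFSet.pair a.toZFSet (en x) ∈ F ∧ nth (Cs en K.ord) b x
        · obtain ⟨b, x, h1, h2⟩ := hex
          exact ⟨b, (pn_spec _ _).1 ⟨x, h2⟩, Or.inl ⟨x, h1, h2⟩⟩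
        · exact ⟨0, h0, Or.inr ⟨hex, rfl⟩⟩
      · rcases hb with ⟨x, h1, h2⟩ | ⟨h1, rfl⟩ <;> rcases hb' with ⟨x', h1', h2'⟩ | ⟨h1', rfl⟩
        · have hx := huq a ha x x' h2.1 h2'.1 h1 h1'
          subst hx
          exact idx_uniq All.vh h2 h2'
        · exact absurd ⟨b, x, h1, h2⟩ h1'
        · exact absurd ⟨b', x', h1', h2'⟩ h1
        · rfl
      · obtain ⟨x, hx⟩ := (pn_spec _ _).2 hb
        have hod : HOD (en x) := HOD.of_sub ((hen.od _).2 ⟨x, rfl⟩) hx.1.1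
        obtain ⟨a, ha, h⟩ := hF2 (en x) hod hx.1.1
        exact ⟨a, ha, Or.inl ⟨x, h, hx⟩⟩
    exact hC β hβ (Pool.Agent.H54.CL.onto_le hon h0τ hτ)

end Pool.Agent.H49.HDA.QF
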