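import Pool.Agent.H7.HD.Targets12
import Pool.Agent.H3.HD.DM

/-!
# MP_e37c09_lc: module DMR, definability of `MR` with codes
-/

open Ordinal Cardinal Order Set
open scoped ZFSet

universe u

namespace Pool.Agent.H49.HDA.DMR

open _root_.HD
open Pool.Agent.H3.HD.DM

/-- satisfaction in `(V_ (k + 1))^HOD` with the traces of the parameters -/
def SZ (φ : Fml) (p : ℕ → ZFSet.{u}) (k d y : ZFSet.{u}) : Prop :=
  k.IsOrdinal ∧ Sat (VH k.rank) φ (cons d (cons y (tr p k.rank)))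

theorem dz_SZ (hDSA : T_DSA.{u}) (φ : Fml) {p : ℕ → ZFSet.{u}} (hp : ∀ n, OD (p n))
    (i j l : ℕ) : DZ.{u} fun v => SZ φ p (v i) (v j) (v l) := by
  have h := (hDSA φ 2 p hp).ren fun n => if n = 0 then i else if n = 1 then j else l
  refine h.congr fun v => ?_
  refine and_congr_right fun _ => ?_
  have e : (fun n => if n < 2 then v (if n + 1 = 0 then i else if n + 1 = 1 then j else l)
      else p (n - 2) ∩ V_ (v (if 0 = 0 then i else if 0 = 1 then j else l)).rank) =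
      cons (v j) (cons (v l) (tr p (v i).rank)) := by
    funext n
    rcases n with _ | _ | n
    · simp
    · simp
    · simp [tr]
  rw [← e]
  rfl

/-- `MR` in terms of sets -/
def MRZ (φ : Fml) (p : ℕ → ZFSet.{u}) (k V y U : ZFSet.{u}) : Prop :=
  ∀ P : ZFSet.{u}, (∀ y' U', (HOD y' ∧ y' ⊆ V) → HMZ k U' →
    (∀ d, ((HOD d ∧ d ⊆ V) ∧ SZ φ p k d y') →
      ∃ W, ZFSet.pair d W ∈ P ∧ MLZ k W U') → ZFSet.pair y' U' ∈ P) → ZFSet.pair y U ∈ P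

theorem sz_iff {φ : Fml} {p : ℕ → ZFSet.{u}} {κ : Ordinal.{u}} {d y : ZFSet.{u}} (hy : VH κ y) :
    ER φ (tr p κ) κ d y ↔ (HOD d ∧ d ⊆ V_ κ) ∧ SZ φ p κ.toZFSet d y := by
  unfold ER SZ
  rw [rank_toZFSet]
  constructor
  · rintro ⟨h1, -, h3⟩
    exact ⟨h1, ZFSet.isOrdinal_toZFSet _, h3⟩
  · rintro ⟨h1, -, h3⟩
    exact ⟨h1, hy, h3⟩

theorem mr_z {φ : Fml} {p : ℕ → ZFSet.{u}} {κ : Ordinal.{u}} {y U : ZFSet.{u}} :
    MR φ p κ y U ↔ MRZ φ p κ.toZFSet (V_ κ) y U := by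
  constructor
  · intro h P hP
    refine h (fun y U => ZFSet.pair y U ∈ P) fun y' U' h1 h2 h3 => ?_
    refine hP y' U' h1 (hmeas_iff.1 h2) fun d hd => ?_
    obtain ⟨W, g1, g2⟩ := h3 d ((sz_iff h1).2 hd)
    exact ⟨W, g1, mlt_iff.1 g2⟩
  · intro h P' hP'
    have key := h (ZFSet.sep (fun q => ∃ a b, q = ZFSet.pair a b ∧ P' a b)
      (ZFSet.prod (ZFSet.powerset (V_ κ)) (ZFSet.powerset (ZFSet.powerset κ.toZFSet)))) ?_
    · obtain ⟨-, a, b, e, hab⟩ := ZFSet.mem_sep.1 key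
      obtain ⟨rfl, rfl⟩ := ZFSet.pair_injective e
      exact hab
    · intro y' U' h1 h2 h3
      have h2' := hmeas_iff.2 h2
      refine ZFSet.mem_sep.2 ⟨ZFSet.pair_mem_prod.2 ⟨ZFSet.mem_powerset.2 h1.2,
        ZFSet.mem_powerset.2 fun x hx => ZFSet.mem_powerset.2 (h2'.sub x hx)⟩, y', U', rfl, ?_⟩
      refine hP' y' U' h1 h2' fun d hd => ?_
      obtain ⟨W, g1, g2⟩ := h3 d ((sz_iff h1).1 hd)
      obtain ⟨-, a, b, e, hab⟩ := ZFSet.mem_sep.1 g1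
      obtain ⟨rfl, rfl⟩ := ZFSet.pair_injective e
      exact ⟨W, hab, mlt_iff.2 g2⟩

theorem dz_MRZ (hDSA : T_DSA.{u}) (φ : Fml) {p : ℕ → ZFSet.{u}} (hp : ∀ n, OD (p n))
    (i j l m : ℕ) : DZ.{u} fun v => MRZ φ p (v i) (v j) (v l) (v m) := by
  refine DZ.all (DZ.imp ?_ (loc_pmem (l + 1) (m + 1) 0).dz)
  refine DZ.all (DZ.all (DZ.imp ((dz_hod 1).and (Loc.sub 1 (j + 3)).dz)
    (DZ.imp (dz_HMZ (i + 3) 0) (DZ.imp ?_ (loc_pmem 1 0 2).dz))))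
  refine DZ.all (DZ.imp (((dz_hod 0).and (Loc.sub 0 (j + 4)).dz).and
    (dz_SZ hDSA φ hp (i + 4) 0 2)) (DZ.ex ((loc_pmem 1 0 4).dz.and (dz_MLZ (i + 5) 0 2))))

/-- DMR. Definability of `MR` with codes (deps: DSA). -/
theorem X (hDSA : T_DSA.{u}) : T_DMR.{u} := by
  intro en hen φ p hp
  refine ⟨fun v => ∃ V, ((v 0).IsOrdinal ∧ V = V_ (v 0).rank) ∧
    ∃ y, ((v 1).IsOrdinal ∧ y = en (v 1).rank) ∧
    ∃ U, ((v 2).IsOrdinal ∧ U = en (v 2).rank) ∧ MRZ φ p (v 0) V y U, ?_, fun w => ?_⟩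
  · refine DZ.ex (DZ.and (loc_V 1 0).dz (DZ.ex (DZ.and ?_ (DZ.ex (DZ.and ?_
      (dz_MRZ hDSA φ hp 3 2 1 0))))))
    · exact hen.dz.ren fun n => if n = 0 then 3 else 0
    · exact hen.dz.ren fun n => if n = 0 then 5 else 0
  · have e : ∀ n, (ov w n).rank = w n := fun n => rank_toZFSet _
    have o : ∀ n, (ov w n).IsOrdinal := fun n => ZFSet.isOrdinal_toZFSet _
    refine Iff.trans (mr_z (φ := φ) (p := p) (κ := w 0) (y := en (w 1)) (U := en (w 2))) ?_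
    constructor
    · intro h
      refine ⟨V_ (w 0), ⟨o 0, by rw [e]⟩, en (w 1), ⟨o 1, by rw [e]⟩, en (w 2),
        ⟨o 2, by rw [e]⟩, h⟩
    · rintro ⟨V, ⟨-, rfl⟩, y, ⟨-, rfl⟩, U, ⟨-, rfl⟩, h⟩
      rw [e, e, e] at h
      exact h

end Pool.Agent.H49.HDA.DMR
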